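import Mathlib
import Pool.Agent.X318.TMInv

/-!
# MP_ff738c_co, Q1: every Hankel determinant `H_{p,n}` of the inverse Thue–Morse series
lies in `{-1, 0, 1}`.
-/

set_option autoImplicit false

namespace Pool.Agent.Results.MP_ff738c_co.HankelUnit

open PowerSeries X318.HankPar X318.TMInv

/-- The Thue–Morse sequence `t_n = s_2(n) mod 2` as an element of `𝔽₂`. -/
def t (n : ℕ) : ZMod 2 := (((Nat.digits 2 n).sum : ℕ) : ZMod 2)

/-- `F(X) = ∑_{n ≥ 1} t_n X^n ∈ 𝔽₂[[X]]` -/
noncomputable def F : PowerSeries (ZMod 2) := PowerSeries.mk fun n => if 1 ≤ n then t n else 0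

/-- `G` is the compositional inverse of `F`: zero constant term, `F(G(X)) = X`, `G(F(X)) = X`. -/
def IsCompInv (G : PowerSeries (ZMod 2)) : Prop :=
  constantCoeff G = 0 ∧ PowerSeries.subst G F = X ∧ PowerSeries.subst F G = X

/-- the coefficient `c_n` of `G`, regarded as the integer `0` or `1` -/
noncomputable def c (G : PowerSeries (ZMod 2)) (n : ℕ) : ℤ := ((coeff n G).val : ℤ)

/-- The Hankel matrix `h_{p,n}`. With 1-based row and column indices `i + 1`, `j + 1`
(`i j : Fin n`), the entry is `c_{p + (i + 1) + (j + 1) - 1}`. -/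
noncomputable def h (G : PowerSeries (ZMod 2)) (p n : ℕ) : Matrix (Fin n) (Fin n) ℤ :=
  Matrix.of fun i j => c G (p + ((i : ℕ) + 1) + ((j : ℕ) + 1) - 1)

lemma F_eq' : F = X318.TMInv.F := by
  ext n
  unfold F X318.TMInv.F
  rw [coeff_mk, coeff_mk]
  rcases Nat.eq_zero_or_pos n with h | h
  · subst h; simp [tm_zero]
  · rw [if_pos (show 1 ≤ n from h)]; rfl

/-- The Thue–Morse series has exactly one compositional inverse `G`, and for it
`H_{p,n} = det h_{p,n} ∈ {-1, 0, 1}` for all `p ≥ 0`, `n ≥ 1` (also `n = 0`). -/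
theorem result : (∃! G : PowerSeries (ZMod 2), IsCompInv G) ∧
    ∀ G : PowerSeries (ZMod 2), IsCompInv G → ∀ p n : ℕ,
      (h G p n).det = -1 ∨ (h G p n).det = 0 ∨ (h G p n).det = 1 := by
  constructor
  · obtain ⟨G, h0, h1, h2⟩ := exists_inv
    refine ⟨G, ⟨h0, by rw [F_eq']; exact h1, by rw [F_eq']; exact h2⟩, ?_⟩
    rintro G' ⟨h0', h1', -⟩
    rw [F_eq'] at h1'
    ext m
    rcases Nat.eq_zero_or_pos m with hm | hm
    · subst hm
      rw [coeff_zero_eq_constantCoeff_apply, coeff_zero_eq_constantCoeff_apply, h0, h0']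
    · have e1 := G_coeff h0 h1 m hm
      have e2 := G_coeff h0' h1' m hm
      rw [← e1] at e2
      exact ZMod.val_injective 2 (by exact_mod_cast e2)
  · rintro G ⟨h0, h1, -⟩ p n
    rw [F_eq'] at h1
    have e : (h G p n).det = D cc (p + 2) n := by
      unfold D dN h
      congr 1
      ext i j
      simp only [Matrix.of_apply]
      unfold c
      rw [G_coeff h0 h1 _ (by omega)]
      have : ((p : ℤ) + 2 + (i : ℕ) + (j : ℕ)) = ((p + 2 + i + j : ℕ) : ℤ) := by push_cast; ring
      rw [this, cc_nat]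
      congr 1
      omega
    rw [e]
    exact UD_cc n (p + 2)

end Pool.Agent.Results.MP_ff738c_co.HankelUnit
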